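import Pool.Agent.TSPd97.LowerFinal
import Pool.Agent.TSPd97.UpperFinal
import Pool.Agent.TSPd97.T1Ball
import Pool.Agent.BHH57.Tauber

/-!
# The limit of the Poissonised mean, and its expansion
-/

set_option autoImplicit false

open MeasureTheory ProbabilityTheory Filter Topology

namespace Pool.Agent.TSPa15

open Pool.Agent.TSPd97

/-- From bounds for large intensity to the limit, for one dimension. -/
theorem expand_one {d : ℕ} (hd : 1 ≤ d) {C0 C1 C2 c β : ℝ}
    (hv : |vball d ^ (-(1 / (d : ℝ))) - pref d| ≤ C0 * pref d / (d : ℝ) ^ 2)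
    (hβ : Tendsto (fun l : ℝ => poisTSP d l / l ^ (((d : ℝ) - 1) / (d : ℝ))) atTop (𝓝 β))
    (h1 : ∀ᶠ l : ℝ in atTop,
      l ^ (((d : ℝ) - 1) / (d : ℝ)) * vball d ^ (-(1 / (d : ℝ))) * (1 + c / d - C1 / (d : ℝ) ^ 2)
        ≤ poisTSP d l)
    (h2 : ∀ᶠ l : ℝ in atTop,
      poisTSP d l ≤ l ^ (((d : ℝ) - 1) / (d : ℝ)) * vball d ^ (-(1 / (d : ℝ)))
        * (1 + c / d + C2 / (d : ℝ) ^ 2)) :
    |β - pref d * (1 + c / d)|
      ≤ ((|C1| + |C2|) * (1 + |C0|) + |C0| * (1 + |c|)) * pref d / (d : ℝ) ^ 2 := by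
  have hdpos : (0 : ℝ) < d := by exact_mod_cast (by omega : 0 < d)
  have hd1r : (1 : ℝ) ≤ (d : ℝ) := by exact_mod_cast (by omega : 1 ≤ d)
  set v : ℝ := vball d ^ (-(1 / (d : ℝ))) with hvdef
  have hpref : 0 ≤ pref d := by
    unfold pref
    have : (0 : ℝ) ≤ Real.pi * d := by positivity
    exact mul_nonneg (Real.sqrt_nonneg _) (Real.rpow_nonneg this _)
  have hlow : v * (1 + c / d - C1 / (d : ℝ) ^ 2) ≤ β := by
    refine ge_of_tendsto hβ ?_
    filter_upwards [h1, eventually_gt_atTop (0 : ℝ)] with l hl hl0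
    have hp : 0 < l ^ (((d : ℝ) - 1) / (d : ℝ)) := Real.rpow_pos_of_pos hl0 _
    rw [le_div_iff₀ hp]
    calc v * (1 + c / d - C1 / (d : ℝ) ^ 2) * l ^ (((d : ℝ) - 1) / (d : ℝ))
        = l ^ (((d : ℝ) - 1) / (d : ℝ)) * v * (1 + c / d - C1 / (d : ℝ) ^ 2) := by ring
      _ ≤ _ := hl
  have hupp : β ≤ v * (1 + c / d + C2 / (d : ℝ) ^ 2) := by
    refine le_of_tendsto hβ ?_
    filter_upwards [h2, eventually_gt_atTop (0 : ℝ)] with l hl hl0
    have hp : 0 < l ^ (((d : ℝ) - 1) / (d : ℝ)) := Real.rpow_pos_of_pos hl0 _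
    rw [div_le_iff₀ hp]
    calc poisTSP d l ≤ _ := hl
      _ = _ := by ring
  have hD2 : 0 < (d : ℝ) ^ 2 := by positivity
  have hD2' : 1 ≤ (d : ℝ) ^ 2 := by nlinarith
  have hv0 : 0 ≤ v := by
    rw [hvdef]
    exact Real.rpow_nonneg ENNReal.toReal_nonneg _
  have hvle : v ≤ (1 + |C0|) * pref d := by
    have h3 := (abs_le.1 hv).2
    have h4 : C0 * pref d / (d : ℝ) ^ 2 ≤ |C0| * pref d := by
      rw [div_le_iff₀ hD2]
      calc C0 * pref d ≤ |C0| * pref d := mul_le_mul_of_nonneg_right (le_abs_self _) hpref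
        _ ≤ |C0| * pref d * (d : ℝ) ^ 2 := by
            exact le_mul_of_one_le_right (by positivity) hD2'
    linarith
  have hβv : |β - v * (1 + c / d)| ≤ v * ((|C1| + |C2|) / (d : ℝ) ^ 2) := by
    rw [abs_le]
    constructor
    · have h5 : v * (C1 / (d : ℝ) ^ 2) ≤ v * ((|C1| + |C2|) / (d : ℝ) ^ 2) := by
        refine mul_le_mul_of_nonneg_left ?_ hv0
        refine div_le_div_of_nonneg_right ?_ hD2.le
        linarith [le_abs_self C1, abs_nonneg C2]
      nlinarith [hlow, h5]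
    · have h5 : v * (C2 / (d : ℝ) ^ 2) ≤ v * ((|C1| + |C2|) / (d : ℝ) ^ 2) := by
        refine mul_le_mul_of_nonneg_left ?_ hv0
        refine div_le_div_of_nonneg_right ?_ hD2.le
        linarith [le_abs_self C2, abs_nonneg C1]
      nlinarith [hupp, h5]
  have hcd : |1 + c / d| ≤ 1 + |c| := by
    calc |1 + c / d| ≤ |(1 : ℝ)| + |c / d| := abs_add_le _ _
      _ ≤ 1 + |c| := by
          rw [abs_one, abs_div, abs_of_pos hdpos]
          have : |c| / (d : ℝ) ≤ |c| := div_le_self (abs_nonneg _) hd1r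
          linarith
  have hvp : |v * (1 + c / d) - pref d * (1 + c / d)|
      ≤ |C0| * pref d / (d : ℝ) ^ 2 * (1 + |c|) := by
    rw [← sub_mul, abs_mul]
    refine mul_le_mul ?_ hcd (abs_nonneg _) (by positivity)
    refine hv.trans ?_
    refine div_le_div_of_nonneg_right ?_ hD2.le
    exact mul_le_mul_of_nonneg_right (le_abs_self _) hpref
  calc |β - pref d * (1 + c / d)|
      ≤ |β - v * (1 + c / d)| + |v * (1 + c / d) - pref d * (1 + c / d)| := abs_sub_le _ _ _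
    _ ≤ v * ((|C1| + |C2|) / (d : ℝ) ^ 2) + |C0| * pref d / (d : ℝ) ^ 2 * (1 + |c|) :=
        add_le_add hβv hvp
    _ ≤ (1 + |C0|) * pref d * ((|C1| + |C2|) / (d : ℝ) ^ 2)
        + |C0| * pref d / (d : ℝ) ^ 2 * (1 + |c|) := by
        gcongr
    _ = _ := by ring

theorem pref_pos {d : ℕ} (hd : 1 ≤ d) : 0 < pref d := by
  have hdpos : (0 : ℝ) < d := by exact_mod_cast (by omega : 0 < d)
  unfold pref
  positivity

/-- **The expansion** of the constants `β d`, `d ≥ 2`, with one constant for all dimensions. -/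
theorem expand_all (β : ℕ → ℝ)
    (hβ : ∀ d : ℕ, 2 ≤ d →
      Tendsto (fun l : ℝ => poisTSP d l / l ^ (((d : ℝ) - 1) / (d : ℝ))) atTop (𝓝 (β d))) :
    ∃ C : ℝ, ∀ d : ℕ, 2 ≤ d →
      |β d / pref d - (1 + (2 - Real.log 2 - 2 * Real.eulerMascheroniConstant) / d)|
        ≤ C / (d : ℝ) ^ 2 := by
  obtain ⟨C1, D1, h1⟩ := lower_final
  obtain ⟨C2, D2, h2⟩ := upper_final
  obtain ⟨C0, D0, h0⟩ := vball_asymp
  set c : ℝ := 2 - Real.log 2 - 2 * Real.eulerMascheroniConstant with hc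
  set K : ℝ := (|C1| + |C2|) * (1 + |C0|) + |C0| * (1 + |c|) with hK
  have hK0 : 0 ≤ K := by positivity
  set N : ℕ := max D0 (max D1 D2) with hN
  set F : ℕ → ℝ := fun d => |β d / pref d - (1 + c / d)| * (d : ℝ) ^ 2 with hF
  refine ⟨K + ∑ d ∈ Finset.range N, F d, fun d hd => ?_⟩
  have hF0 : ∀ d, 0 ≤ F d := fun d => by simp only [hF]; positivity
  have hd0 : (0 : ℝ) < d := by exact_mod_cast (by omega : 0 < d)
  have hp := pref_pos (d := d) (by omega)
  rw [le_div_iff₀ (by positivity)]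
  rcases lt_or_ge d N with h | h
  · have := Finset.single_le_sum (f := F) (fun i _ => hF0 i) (Finset.mem_range.2 h)
    simp only [hF] at this ⊢
    linarith
  · have hd0' : D0 ≤ d := le_trans (le_max_left _ _) h
    have hd1' : D1 ≤ d := le_trans (le_trans (le_max_left _ _) (le_max_right _ _)) h
    have hd2' : D2 ≤ d := le_trans (le_trans (le_max_right _ _) (le_max_right _ _)) h
    have h3 := expand_one (c := c) (by omega) (h0 d hd0') (hβ d hd) (h1 d hd1') (h2 d hd2')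
    have h4 : β d / pref d - (1 + c / d) = (β d - pref d * (1 + c / d)) / pref d := by
      field_simp
    have h5 : |β d / pref d - (1 + c / d)| * (d : ℝ) ^ 2 ≤ K := by
      rw [h4, abs_div, abs_of_pos hp, div_mul_eq_mul_div, div_le_iff₀ hp]
      rw [le_div_iff₀ (by positivity)] at h3
      exact h3
    have h6 : 0 ≤ ∑ d ∈ Finset.range N, F d := Finset.sum_nonneg fun i _ => hF0 i
    linarith

end Pool.Agent.TSPa15
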